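import Mathlib
import Pool.Agent.V8H94.GC.Angle

/-!
# Relations between Weil numbers of several weights in independent generic CM fields
-/

set_option autoImplicit false
set_option linter.unusedSectionVars false

namespace Pool.Agent.V8H94.SS

open NumberField Module Pool.Agent.H204R3.CM Pool.Agent.H977R3.WN Pool.Agent.H977R3.CM
  Pool.Agent.Y137.MV Pool.Agent.V8H71.OD Pool.Agent.V8H94.GC

variable {p : ℕ} [Fact p.Prime] {I : Type} [Fintype I]
  {K : I → Type} [∀ i, Field (K i)] [∀ i, NumberField (K i)] [∀ i, IsCMField (K i)]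

/-- A multiplicative relation gives a linear relation between the slope vectors of the numbers in
each of the fields, for each complex embedding. -/
theorem split_of_rel (hind : PairwiseIndep K) (hgen : ∀ i, IsGeneric (K i)) {J : I → Type}
    [∀ i, Fintype (J i)] {π : ∀ z : Σ i, J i, K z.1} {a : (Σ i, J i) → ℕ}
    (hw : ∀ z, π z * IsCMField.complexConj (K z.1) (π z) = (p : K z.1) ^ a z)
    (n : (Σ z : Σ i, J i, (K z.1 →+* ℂ)) → ℤ) (r : ℤ)
    (hrel : ∏ y : Σ z : Σ i, J i, (K z.1 →+* ℂ), (y.2 (π y.1)) ^ n y = (p : ℂ) ^ r)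
    (i : I) (φ : K i →+* ℂ) (τ : K i →+* PadicAlgCl p) :
    ∑ k, ((n ⟨⟨i, k⟩, φ⟩ - n ⟨⟨i, k⟩, ComplexEmbedding.conjugate φ⟩ : ℤ) : ℝ) *
      slopeVec (a ⟨i, k⟩) (π ⟨i, k⟩) τ = 0 := by
  classical
  obtain ⟨L, _, _, j, hj⟩ := exists_galois K
  have hL : Algebra.IsAlgebraic ℚ L := inferInstance
  obtain ⟨jp⟩ : Nonempty (L →+* PadicAlgCl p) :=
    ⟨((IsAlgClosed.lift : L →ₐ[ℚ] PadicAlgCl p) : L →+* PadicAlgCl p)⟩
  have hπ0 : ∀ z, π z ≠ 0 := fun z => ne_zero_of_weil (hw z)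
  let EQ : ∀ i, (K i →+* L) ≃ (K i →+* ℂ) := fun i => Equiv.ofBijective (fun φ => j.comp φ)
    ⟨fun φ φ' h => RingHom.ext fun x => j.injective (RingHom.congr_fun h x), hj i⟩
  let Y : Type := Σ z : (Σ i, J i), (K z.1 →+* L)
  let m : Y → ℤ := fun y => n ⟨y.1, j.comp y.2⟩
  have hrelL : ∏ y : Y, (y.2 (π y.1)) ^ m y = (p : L) ^ r := by
    apply j.injective
    rw [map_prod, map_zpow₀, map_natCast, ← hrel]
    refine Fintype.prod_equiv (Equiv.sigmaCongrRight fun z : (Σ i, J i) => EQ z.1) _ _ fun y => ?_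
    rw [map_zpow₀]
    rfl
  let s : ∀ z : Σ i, J i, (K z.1 →+* L) → ℝ := fun z φ => slopeVec (a z) (π z) (jp.comp φ)
  have hscb : ∀ z φ, s z (cbar φ) = - s z φ := fun z φ => slopeVec_cbar (hw z) (jp.comp φ)
  have hpr : lgp p ((p : PadicAlgCl p) ^ r) = -r := by
    rw [lgp_zpow]
    have h1 := lgp_q p 1
    rw [pow_one] at h1
    rw [h1]
    push_cast
    ring
  have hS : ∀ g : L ≃ₐ[ℚ] L, ∑ y : Y, (m y : ℝ) * s y.1 (g • y.2) =
      2 * (r : ℝ) - ∑ y : Y, (a y.1 : ℝ) * (m y : ℝ) := by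
    intro g
    have h1 := congrArg (fun x => lgp p (jp (g x))) hrelL
    simp only [map_prod, map_zpow₀, map_natCast] at h1
    rw [lgp_prod _ _ (fun y _ => zpow_ne_zero _ ((_root_.map_ne_zero jp).2
      ((_root_.map_ne_zero g).2 ((_root_.map_ne_zero _).2 (hπ0 _))))), hpr] at h1
    have h2 : ∀ y : Y, (m y : ℝ) * s y.1 (g • y.2) =
        -2 * lgp p ((jp (g (y.2 (π y.1)))) ^ m y) - a y.1 * (m y : ℝ) := by
      intro y
      have h3 : s y.1 (g • y.2) = 2 * (- Real.logb p ‖jp (g (y.2 (π y.1)))‖) - a y.1 := rfl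
      rw [h3, lgp_zpow]
      unfold lgp
      ring
    rw [Finset.sum_congr rfl (fun y _ => h2 y), Finset.sum_sub_distrib, ← Finset.mul_sum, h1]
    ring
  obtain ⟨c₀, hc₀⟩ := exists_gal j (starRingAut : ℂ ≃+* ℂ)
  have hcφ : ∀ (i : I) (φ : K i →+* L), c₀ • φ = cbar φ := by
    intro i φ
    refine RingHom.ext fun x => j.injective ?_
    have h1 := hc₀ (φ x)
    have h2 := RingHom.congr_fun (comp_cbar j φ) x
    rw [ComplexEmbedding.conjugate_coe_eq] at h2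
    exact h1.symm.trans h2.symm
  have hC0 : 2 * (r : ℝ) - ∑ y : Y, (a y.1 : ℝ) * (m y : ℝ) = 0 := by
    have h1 := hS 1
    have h2 := hS (1 * c₀)
    have h3 : ∀ y : Y, (m y : ℝ) * s y.1 ((1 * c₀ : L ≃ₐ[ℚ] L) • y.2) =
        -((m y : ℝ) * s y.1 ((1 : L ≃ₐ[ℚ] L) • y.2)) := by
      intro y
      rw [mul_smul, hcφ]
      have h4 : (1 : L ≃ₐ[ℚ] L) • cbar y.2 = cbar ((1 : L ≃ₐ[ℚ] L) • y.2) := rfl
      rw [h4, hscb]
      ring
    rw [Finset.sum_congr rfl (fun y _ => h3 y), Finset.sum_neg_distrib, h1] at h2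
    linarith
  let e : ∀ z : Σ i, J i, (K z.1 →+* L) → ℝ := fun z φ => (m ⟨z, φ⟩ : ℝ) - m ⟨z, cbar φ⟩
  have hrel2 : ∀ g : L ≃ₐ[ℚ] L, ∑ z, ∑ φ, e z φ * s z (g • φ) = 0 := by
    intro g
    have h1 : ∑ z, ∑ φ, e z φ * s z (g • φ) =
        (∑ y : Y, (m y : ℝ) * s y.1 (g • y.2)) -
          ∑ y : Y, (m ⟨y.1, cbar y.2⟩ : ℝ) * s y.1 (g • y.2) := by
      rw [← Finset.sum_sub_distrib, ← Fintype.sum_sigma (fun y : Y => e y.1 y.2 * s y.1 (g • y.2))]
      refine Finset.sum_congr rfl fun y _ => ?_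
      simp only [e]
      ring
    have h3 : ∑ y : Y, (m ⟨y.1, cbar y.2⟩ : ℝ) * s y.1 (g • y.2) =
        - ∑ y : Y, (m y : ℝ) * s y.1 (g • y.2) := by
      rw [← Finset.sum_neg_distrib]
      let E : Y ≃ Y :=
        { toFun := fun y => ⟨y.1, cbar y.2⟩
          invFun := fun y => ⟨y.1, cbar y.2⟩
          left_inv := by
            rintro ⟨i, φ⟩
            simp only [cbar_cbar]
          right_inv := by
            rintro ⟨i, φ⟩
            simp only [cbar_cbar] }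
      refine Fintype.sum_equiv E _ _ fun y => ?_
      change (m ⟨y.1, cbar y.2⟩ : ℝ) * s y.1 (g • y.2) =
        -((m ⟨y.1, cbar y.2⟩ : ℝ) * s y.1 (g • cbar y.2))
      have h4 : g • cbar y.2 = cbar (g • y.2) := rfl
      rw [h4, hscb]
      ring
    rw [h1, h3, hS, hC0]
    ring
  obtain ⟨ψ, rfl⟩ := hj i φ
  obtain ⟨χ, rfl⟩ := factor j (hj i) jp τ
  have h1 : ∑ k, e ⟨i, k⟩ ψ * s ⟨i, k⟩ χ = 0 :=
    split_relations hind hgen j hj e s (fun z φ => by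
      simp only [e, cbar_cbar]
      ring) hscb hrel2 i ψ χ
  rw [← h1]
  refine Finset.sum_congr rfl fun k _ => ?_
  have h4 : m ⟨⟨i, k⟩, cbar ψ⟩ = n ⟨⟨i, k⟩, ComplexEmbedding.conjugate (j.comp ψ)⟩ := by
    change n ⟨⟨i, k⟩, j.comp (cbar ψ)⟩ = _
    rw [comp_cbar]
  simp only [e]
  rw [h4]
  push_cast
  rfl

end Pool.Agent.V8H94.SS
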