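import Mathlib
import Pool.Agent.V8H94.SS.Split

/-!
# Relations with unrelated numbers, dissociated slope vectors
-/

set_option autoImplicit false
set_option linter.unusedSectionVars false

namespace Pool.Agent.V8H94.SS

open NumberField Module Pool.Agent.H204R3.CM Pool.Agent.H977R3.WN Pool.Agent.H977R3.CM
  Pool.Agent.Y137.MV Pool.Agent.V8H71.OD Pool.Agent.V8H94.GC

/-- The set `S` of complex numbers is unrelated to the (CM) field `K`: for each complex embedding `φ`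
of `K` some automorphism of the field of complex numbers is the complex conjugation on `φ (K)` and
fixes a power of each element of `S`. -/
def UnrelatedTo (S : Set ℂ) (K : Type) [Field K] : Prop :=
  ∀ φ : K →+* ℂ, ∃ σ : ℂ ≃+* ℂ, (∀ x, σ (φ x) = (starRingEnd ℂ) (φ x)) ∧
    ∀ s ∈ S, ∃ M : ℕ, 0 < M ∧ σ (s ^ M) = s ^ M

/-- The vectors `u k` are dissociated: no linear relation between them with coefficients `-1`, `0`
and `1` is nontrivial. In other words, the sums of the `u k` over different subsets are different. -/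
def Dissociated {κ V : Type*} [Fintype κ] [AddCommGroup V] (u : κ → V) : Prop :=
  ∀ e : κ → ℤ, (∀ k, |e k| ≤ 1) → ∑ k, e k • u k = 0 → ∀ k, e k = 0

section

variable {p : ℕ} [Fact p.Prime] {I : Type} [Fintype I]
  {K : I → Type} [∀ i, Field (K i)] [∀ i, NumberField (K i)] [∀ i, IsCMField (K i)]

theorem pow_prod_fixed (σ : ℂ ≃+* ℂ) (B : Multiset ℂ)
    (h : ∀ s ∈ B, ∃ M : ℕ, 0 < M ∧ σ (s ^ M) = s ^ M) :
    ∃ M : ℕ, 0 < M ∧ σ (B.prod ^ M) = B.prod ^ M := by
  induction B using Multiset.induction_on with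
  | empty => exact ⟨1, one_pos, by simp⟩
  | cons b B ih =>
    obtain ⟨M₁, h1, h2⟩ := h b (Multiset.mem_cons_self b B)
    obtain ⟨M₂, h3, h4⟩ := ih fun s hs => h s (Multiset.mem_cons_of_mem hs)
    refine ⟨M₁ * M₂, Nat.mul_pos h1 h3, ?_⟩
    have e1 : (b ::ₘ B).prod ^ (M₁ * M₂) = (b ^ M₁) ^ M₂ * (B.prod ^ M₂) ^ M₁ := by
      rw [Multiset.prod_cons, mul_pow, pow_mul b, mul_comm M₁ M₂, pow_mul B.prod]
    rw [e1, map_mul, map_pow σ (b ^ M₁) M₂, map_pow σ (B.prod ^ M₂) M₁, h2, h4]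

/-- The same for relations which also involve numbers unrelated to the fields. -/
theorem split_unrel (hind : PairwiseIndep K) (hgen : ∀ i, IsGeneric (K i)) {J : I → Type}
    [∀ i, Fintype (J i)] {π : ∀ z : Σ i, J i, K z.1} {a : (Σ i, J i) → ℕ}
    (hw : ∀ z, π z * IsCMField.complexConj (K z.1) (π z) = (p : K z.1) ^ a z)
    (n : (Σ z : Σ i, J i, (K z.1 →+* ℂ)) → ℤ) (r : ℤ) {S : Set ℂ}
    (hS : ∀ i, UnrelatedTo S (K i)) {B : Multiset ℂ} (hB : ∀ b ∈ B, b ∈ S)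
    (hrel : (∏ y : Σ z : Σ i, J i, (K z.1 →+* ℂ), (y.2 (π y.1)) ^ n y) * B.prod = (p : ℂ) ^ r)
    (i : I) (φ : K i →+* ℂ) (τ : K i →+* PadicAlgCl p) :
    ∑ k, ((n ⟨⟨i, k⟩, φ⟩ - n ⟨⟨i, k⟩, ComplexEmbedding.conjugate φ⟩ : ℤ) : ℝ) *
      slopeVec (a ⟨i, k⟩) (π ⟨i, k⟩) τ = 0 := by
  classical
  obtain ⟨σ, hσ1, hσ2⟩ := hS i φ
  obtain ⟨M, hM, hM2⟩ := pow_prod_fixed σ B fun s hs => hσ2 s (hB s hs)
  have hp0 : (p : ℂ) ≠ 0 := Nat.cast_ne_zero.2 (Fact.out : p.Prime).ne_zero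
  have hπ0 : ∀ z, π z ≠ 0 := fun z => ne_zero_of_weil (hw z)
  have hB0 : B.prod ≠ 0 := by
    intro h
    rw [h, mul_zero] at hrel
    exact zpow_ne_zero r hp0 hrel.symm
  -- the action of `σ` on the embeddings
  let s : ∀ z : Σ i, J i, (K z.1 →+* ℂ) ≃ (K z.1 →+* ℂ) := fun z =>
    { toFun := fun ψ => (σ : ℂ →+* ℂ).comp ψ
      invFun := fun ψ => (σ.symm : ℂ →+* ℂ).comp ψ
      left_inv := fun ψ => RingHom.ext fun x => σ.symm_apply_apply _
      right_inv := fun ψ => RingHom.ext fun x => σ.apply_symm_apply _ }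
  set X : ℂ := ∏ y : Σ z : Σ i, J i, (K z.1 →+* ℂ), (y.2 (π y.1)) ^ n y with hX
  have hσX : σ X = ∏ y : Σ z : Σ i, J i, (K z.1 →+* ℂ),
      (y.2 (π y.1)) ^ n ⟨y.1, (s y.1).symm y.2⟩ := by
    rw [hX, map_prod]
    refine Fintype.prod_equiv (Equiv.sigmaCongrRight s) _ _ fun y => ?_
    rw [map_zpow₀]
    change (σ (y.2 (π y.1))) ^ n y =
      ((s y.1 y.2) (π y.1)) ^ n ⟨y.1, (s y.1).symm (s y.1 y.2)⟩
    rw [Equiv.symm_apply_apply]
    rfl
  have h1 : (σ X) ^ M = X ^ M := by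
    have e1 : σ ((X * B.prod) ^ M) = σ (((p : ℂ) ^ r) ^ M) := by rw [hrel]
    rw [mul_pow, map_mul, hM2, map_pow, ← zpow_natCast ((p : ℂ) ^ r), ← zpow_mul, map_zpow₀,
      map_natCast, zpow_mul, zpow_natCast, ← hrel, mul_pow] at e1
    exact mul_right_cancel₀ (pow_ne_zero M hB0) e1
  have h2 : ∏ y : Σ z : Σ i, J i, (K z.1 →+* ℂ),
      (y.2 (π y.1)) ^ ((M : ℤ) * (n y - n ⟨y.1, (s y.1).symm y.2⟩)) = (p : ℂ) ^ (0 : ℤ) := by
    have e1 : ∀ y : Σ z : Σ i, J i, (K z.1 →+* ℂ),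
        (y.2 (π y.1)) ^ ((M : ℤ) * (n y - n ⟨y.1, (s y.1).symm y.2⟩)) =
        ((y.2 (π y.1)) ^ n y) ^ M / ((y.2 (π y.1)) ^ n ⟨y.1, (s y.1).symm y.2⟩) ^ M := by
      intro y
      have h3 : y.2 (π y.1) ≠ 0 := (_root_.map_ne_zero _).2 (hπ0 _)
      rw [← div_pow, ← zpow_sub₀ h3, ← zpow_natCast, ← zpow_mul]
      congr 1
      ring
    rw [Finset.prod_congr rfl fun y _ => e1 y, Finset.prod_div_distrib, Finset.prod_pow,
      Finset.prod_pow, ← hσX, ← hX, h1, zpow_zero]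
    apply div_self
    apply pow_ne_zero
    rw [hX]
    exact Finset.prod_ne_zero_iff.2 fun y _ => zpow_ne_zero _ ((_root_.map_ne_zero _).2 (hπ0 _))
  have h3 := split_of_rel hind hgen hw _ 0 h2 i φ τ
  have hc1 : (σ : ℂ →+* ℂ).comp φ = ComplexEmbedding.conjugate φ := by
    ext x
    rw [ComplexEmbedding.conjugate_coe_eq]
    exact hσ1 x
  have hc2 : (σ : ℂ →+* ℂ).comp (ComplexEmbedding.conjugate φ) = φ := by
    ext x
    have e1 : ComplexEmbedding.conjugate φ x = φ (IsCMField.complexConj (K i) x) :=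
      (IsCMField.complexEmbedding_complexConj (K i) φ x).symm
    have e2 : φ x = (starRingEnd ℂ) (φ (IsCMField.complexConj (K i) x)) := by
      rw [IsCMField.complexEmbedding_complexConj]
      exact (Complex.conj_conj _).symm
    change σ (ComplexEmbedding.conjugate φ x) = φ x
    rw [e1, hσ1, ← e2]
  have hs1 : ∀ k, (s ⟨i, k⟩).symm φ = ComplexEmbedding.conjugate φ := fun k => by
    rw [Equiv.symm_apply_eq]
    exact hc2.symm
  have hs2 : ∀ k, (s ⟨i, k⟩).symm (ComplexEmbedding.conjugate φ) = φ := fun k => by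
    rw [Equiv.symm_apply_eq]
    exact hc1.symm
  have h4 : ∑ k, (((M : ℤ) * (n ⟨⟨i, k⟩, φ⟩ - n ⟨⟨i, k⟩, (s ⟨i, k⟩).symm φ⟩) -
      (M : ℤ) * (n ⟨⟨i, k⟩, ComplexEmbedding.conjugate φ⟩ -
        n ⟨⟨i, k⟩, (s ⟨i, k⟩).symm (ComplexEmbedding.conjugate φ)⟩) : ℤ) : ℝ) *
      slopeVec (a ⟨i, k⟩) (π ⟨i, k⟩) τ = (2 * M : ℝ) * ∑ k, ((n ⟨⟨i, k⟩, φ⟩ -
        n ⟨⟨i, k⟩, ComplexEmbedding.conjugate φ⟩ : ℤ) : ℝ) *
      slopeVec (a ⟨i, k⟩) (π ⟨i, k⟩) τ := by
    rw [Finset.mul_sum]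
    refine Finset.sum_congr rfl fun k _ => ?_
    rw [hs1, hs2]
    push_cast
    ring
  have h5 : (2 * M : ℝ) * ∑ k, ((n ⟨⟨i, k⟩, φ⟩ -
        n ⟨⟨i, k⟩, ComplexEmbedding.conjugate φ⟩ : ℤ) : ℝ) *
      slopeVec (a ⟨i, k⟩) (π ⟨i, k⟩) τ = 0 := h4.symm.trans h3
  have h6 : (0 : ℝ) < M := by exact_mod_cast hM
  exact (mul_eq_zero.1 h5).resolve_left (by positivity)

/-- If the slope vectors are dissociated, a relation with small exponents is trivial. -/
theorem trivial_of_split {J : I → Type} [∀ i, Fintype (J i)] {π : ∀ z : Σ i, J i, K z.1}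
    {a : (Σ i, J i) → ℕ} (i : I)
    (hdis : Dissociated
      fun k : J i => (slopeVec (a ⟨i, k⟩) (π ⟨i, k⟩) : (K i →+* PadicAlgCl p) → ℝ))
    (e : J i → ℤ) (he : ∀ k, |e k| ≤ 1)
    (h : ∀ τ : K i →+* PadicAlgCl p, ∑ k, (e k : ℝ) * slopeVec (a ⟨i, k⟩) (π ⟨i, k⟩) τ = 0)
    (k : J i) : e k = 0 := by
  refine hdis e he ?_ k
  funext τ
  rw [Finset.sum_apply, Pi.zero_apply, ← h τ]
  refine Finset.sum_congr rfl fun k _ => ?_
  rw [Pi.smul_apply, zsmul_eq_mul]

theorem conjugate_ne {E : Type} [Field E] [NumberField E] [IsCMField E] (φ : E →+* ℂ) :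
    ComplexEmbedding.conjugate φ ≠ φ := by
  intro h
  have h5 : IsTotallyComplex E := inferInstance
  exact (InfinitePlace.isComplex_mk_iff.1 (h5.isComplex (InfinitePlace.mk φ))) h

/-- Different embeddings of the numbers of the same weight are different. -/
theorem inj_of_dissociated (hind : PairwiseIndep K) (hgen : ∀ i, IsGeneric (K i)) {J : I → Type}
    [∀ i, Fintype (J i)] {π : ∀ z : Σ i, J i, K z.1} {a : (Σ i, J i) → ℕ}
    (hw : ∀ z, π z * IsCMField.complexConj (K z.1) (π z) = (p : K z.1) ^ a z)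
    (hdis : ∀ i, Dissociated
      fun k : J i => (slopeVec (a ⟨i, k⟩) (π ⟨i, k⟩) : (K i →+* PadicAlgCl p) → ℝ))
    (y y' : Σ z : Σ i, J i, (K z.1 →+* ℂ)) (h : y.2 (π y.1) = y'.2 (π y'.1)) : y = y' := by
  classical
  by_contra hne
  have hπ0 : ∀ z, π z ≠ 0 := fun z => ne_zero_of_weil (hw z)
  obtain ⟨⟨i, k⟩, φ⟩ := y
  simp only at h
  let n : (Σ z : Σ i, J i, (K z.1 →+* ℂ)) → ℤ := fun x =>
    (if x = ⟨⟨i, k⟩, φ⟩ then 1 else 0) - (if x = y' then 1 else 0)
  have hrel : ∏ x : Σ z : Σ i, J i, (K z.1 →+* ℂ), (x.2 (π x.1)) ^ n x = (p : ℂ) ^ (0 : ℤ) := by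
    have e1 : ∀ x : Σ z : Σ i, J i, (K z.1 →+* ℂ), (x.2 (π x.1)) ^ n x =
        (if x = ⟨⟨i, k⟩, φ⟩ then x.2 (π x.1) else 1) / (if x = y' then x.2 (π x.1) else 1) := by
      intro x
      have h3 : x.2 (π x.1) ≠ 0 := (_root_.map_ne_zero _).2 (hπ0 _)
      simp only [n]
      rw [zpow_sub₀ h3]
      congr 1 <;> split_ifs <;> simp
    rw [Finset.prod_congr rfl fun x _ => e1 x, Finset.prod_div_distrib,
      Finset.prod_ite_eq' Finset.univ (⟨⟨i, k⟩, φ⟩ : Σ z : Σ i, J i, (K z.1 →+* ℂ))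
        (fun x => x.2 (π x.1)), if_pos (Finset.mem_univ _),
      Finset.prod_ite_eq' Finset.univ y' (fun x => x.2 (π x.1)), if_pos (Finset.mem_univ _),
      zpow_zero, h]
    exact div_self ((_root_.map_ne_zero _).2 (hπ0 _))
  have hn : ∀ x, n x = (if x = ⟨⟨i, k⟩, φ⟩ then 1 else 0) - (if x = y' then 1 else 0) :=
    fun x => rfl
  have hsp := split_of_rel hind hgen hw n 0 hrel i φ
  have hφ := conjugate_ne φ
  -- the value at `k`
  have hn1 : n ⟨⟨i, k⟩, φ⟩ = 1 := by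
    rw [hn, if_pos rfl, if_neg hne, sub_zero]
  have hn2 : n ⟨⟨i, k⟩, ComplexEmbedding.conjugate φ⟩ =
      - (if (⟨⟨i, k⟩, ComplexEmbedding.conjugate φ⟩ : Σ z : Σ i, J i, (K z.1 →+* ℂ)) = y'
        then 1 else 0) := by
    rw [hn, if_neg, zero_sub]
    intro h1
    apply hφ
    have h2 := congrArg (fun x : Σ z : Σ i, J i, (K z.1 →+* ℂ) => x) h1
    simpa using h2
  by_cases hy : (⟨⟨i, k⟩, ComplexEmbedding.conjugate φ⟩ : Σ z : Σ i, J i, (K z.1 →+* ℂ)) = y'
  · -- the relation is `2 u = 0`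
    have h1 : ∀ τ : K i →+* PadicAlgCl p,
        ∑ l, ((if l = k then (1 : ℤ) else 0 : ℤ) : ℝ) * slopeVec (a ⟨i, l⟩) (π ⟨i, l⟩) τ = 0 := by
      intro τ
      have h2 := hsp τ
      have h3 : ∑ l, ((n ⟨⟨i, l⟩, φ⟩ - n ⟨⟨i, l⟩, ComplexEmbedding.conjugate φ⟩ : ℤ) : ℝ) *
          slopeVec (a ⟨i, l⟩) (π ⟨i, l⟩) τ = 2 * ∑ l, ((if l = k then (1 : ℤ) else 0 : ℤ) : ℝ) *
            slopeVec (a ⟨i, l⟩) (π ⟨i, l⟩) τ := by
        rw [Finset.mul_sum]
        refine Finset.sum_congr rfl fun l _ => ?_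
        by_cases hl : l = k
        · subst hl
          rw [hn1, hn2, if_pos hy, if_pos rfl]
          push_cast
          ring
        · have e1 : n ⟨⟨i, l⟩, φ⟩ = 0 := by
            rw [hn, if_neg, if_neg, sub_zero]
            · rw [← hy]
              intro h4
              apply hl
              have := congrArg (fun x : Σ z : Σ i, J i, (K z.1 →+* ℂ) => x.1) h4
              simpa using this
            · intro h4
              apply hl
              have := congrArg (fun x : Σ z : Σ i, J i, (K z.1 →+* ℂ) => x.1) h4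
              simpa using this
          have e2 : n ⟨⟨i, l⟩, ComplexEmbedding.conjugate φ⟩ = 0 := by
            rw [hn, if_neg, if_neg, sub_zero]
            · rw [← hy]
              intro h4
              apply hl
              have := congrArg (fun x : Σ z : Σ i, J i, (K z.1 →+* ℂ) => x.1) h4
              simpa using this
            · intro h4
              apply hl
              have := congrArg (fun x : Σ z : Σ i, J i, (K z.1 →+* ℂ) => x.1) h4
              simpa using this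
          rw [e1, e2, if_neg hl]
          simp
      rw [h3] at h2
      linarith
    have h2 := trivial_of_split i (hdis i) (fun l => if l = k then 1 else 0)
      (fun l => by split_ifs <;> simp) h1 k
    simp at h2
  · have h1 := trivial_of_split i (hdis i)
      (fun l => n ⟨⟨i, l⟩, φ⟩ - n ⟨⟨i, l⟩, ComplexEmbedding.conjugate φ⟩) (fun l => ?_) hsp k
    · simp only at h1
      rw [hn1, hn2, if_neg hy] at h1
      simp at h1
    · by_cases hl : l = k
      · subst hl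
        rw [hn1, hn2, if_neg hy]
        simp
      · have e1 : (⟨⟨i, l⟩, φ⟩ : Σ z : Σ i, J i, (K z.1 →+* ℂ)) ≠ ⟨⟨i, k⟩, φ⟩ := by
          intro h4
          apply hl
          have := congrArg (fun x : Σ z : Σ i, J i, (K z.1 →+* ℂ) => x.1) h4
          simpa using this
        have e2 : (⟨⟨i, l⟩, ComplexEmbedding.conjugate φ⟩ : Σ z : Σ i, J i, (K z.1 →+* ℂ)) ≠
            ⟨⟨i, k⟩, φ⟩ := by
          intro h4
          apply hl
          have := congrArg (fun x : Σ z : Σ i, J i, (K z.1 →+* ℂ) => x.1) h4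
          simpa using this
        rw [hn, hn, if_neg e1, if_neg e2]
        split_ifs with h5 h6
        · exfalso
          rw [← h6] at h5
          apply hφ
          have := congrArg (fun x : Σ z : Σ i, J i, (K z.1 →+* ℂ) => x) h5
          simpa using this.symm
        · simp
        · simp
        · simp

end

end Pool.Agent.V8H94.SS
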