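import Mathlib
import Pool.Agent.V8H71.SS.Place
import Pool.Agent.V8H94.SS.Unrel
import Pool.Agent.Results.MP_8f1292_ag.RelationFreeFrobenius

/-!
# No isotropic relations at a prime number with generic Frobenius fields
-/

set_option autoImplicit false
set_option linter.unusedSectionVars false

namespace Pool.Agent.V8H94.SS

open NumberField IsDedekindDomain Module Polynomial Finset Pool.Agent.H977R3.CM
  Pool.Agent.Y137.MV Pool.Agent.V8H94.GC
  Pool.Agent.Results.MP_8f1292_ag.RelationFreeFrobenius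

variable {F E : Type} [Field F] [NumberField F] [Field E] [NumberField E]

/-- `α` is a conjugate of one of the numbers `π z` at the place `v`, that is, with `pl z = v`. -/
def ConjAt {I : Type} {K : I → Type} [∀ i, Field (K i)] {J : I → Type} (π : ∀ z : Σ i, J i, K z.1)
    (pl : (Σ i, J i) → HeightOneSpectrum (𝓞 F)) (v : HeightOneSpectrum (𝓞 F)) (α : ℂ) : Prop :=
  ∃ z, pl z = v ∧ ∃ φ : K z.1 →+* ℂ, φ (π z) = α

/-- The Frobenius polynomials `P v`, of weight `w`, at the places `v` of `F` above the prime number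
`p` generate generic fields. Given are finitely many pairwise independent generic CM fields `K i`,
for each `i` finitely many numbers `π ⟨i, k⟩` in `K i`, each attached to a place `pl z` of `F` above
`p` with `p ^ f z` elements in the residue field, one place `v₀` above `p` and a set `S` of complex
numbers unrelated to the fields `K i` (`UnrelatedTo`). The numbers `π z` have all absolute values
`p ^ (f z * w / 2)`, and for each field `K i` the slope vectors of the numbers `π ⟨i, k⟩` are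
dissociated. The roots of `P v₀` are simple, and each of them is real or a conjugate of a `π z` at
`v₀`; for the other places `v` above `p` each root of `P v` either is simple and a conjugate of a
`π z` at `v`, or belongs to `S`. -/
structure FrobeniusFields (P : HeightOneSpectrum (𝓞 F) → E[X]) (ι : E →+* ℂ) (w p : ℕ)
    [Fact p.Prime] (v₀ : HeightOneSpectrum (𝓞 F)) {I : Type} [Fintype I] (K : I → Type)
    [∀ i, Field (K i)] [∀ i, NumberField (K i)] [∀ i, IsCMField (K i)] (J : I → Type)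
    [∀ i, Fintype (J i)] (π : ∀ z : Σ i, J i, K z.1)
    (pl : (Σ i, J i) → HeightOneSpectrum (𝓞 F)) (f : (Σ i, J i) → ℕ) (S : Set ℂ) : Prop where
  above : Above v₀ p
  indep : PairwiseIndep K
  generic : ∀ i, IsGeneric (K i)
  unrelated : ∀ i, UnrelatedTo S (K i)
  norm : ∀ z, q (pl z) = p ^ f z
  weil : ∀ z, π z * IsCMField.complexConj (K z.1) (π z) = (p : K z.1) ^ (f z * w)
  dissociated : ∀ i, Dissociated fun k : J i =>
    (slopeVec (f ⟨i, k⟩ * w) (π ⟨i, k⟩) : (K i →+* PadicAlgCl p) → ℝ)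
  first : ∀ α ∈ ((P v₀).map ι).roots, ((P v₀).map ι).roots.count α = 1 ∧
    (α.im = 0 ∨ ConjAt π pl v₀ α)
  others : ∀ v, Above v p → v ≠ v₀ → ∀ α ∈ ((P v).map ι).roots,
    (((P v).map ι).roots.count α = 1 ∧ ConjAt π pl v α) ∨ α ∈ S

theorem above_finite {p : ℕ} (hp : p ≠ 0) :
    {v : HeightOneSpectrum (𝓞 F) | Above v p}.Finite := by
  have h1 : Ideal.span {(p : 𝓞 F)} ≠ 0 := by
    rw [Ne, Ideal.zero_eq_bot, Ideal.span_singleton_eq_bot]
    exact_mod_cast hp
  refine (Ideal.finite_factors h1).subset fun v hv => ?_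
  change v.asIdeal ∣ Ideal.span {(p : 𝓞 F)}
  rw [Ideal.dvd_span_singleton]
  exact hv

theorem q_ne (v : HeightOneSpectrum (𝓞 F)) : q v ≠ 0 := by
  rw [q, Ne, Ideal.absNorm_eq_zero_iff]
  exact v.ne_bot

variable {I : Type} [Fintype I] {K : I → Type}
    [∀ i, Field (K i)] [∀ i, NumberField (K i)] [∀ i, IsCMField (K i)] {J : I → Type}
    [∀ i, Fintype (J i)] {π : ∀ z : Σ i, J i, K z.1}
    {pl : (Σ i, J i) → HeightOneSpectrum (𝓞 F)} {f : (Σ i, J i) → ℕ} {S : Set ℂ}

theorem conj_mul' {K : Type} [Field K] [NumberField K] [IsCMField K] {p a : ℕ} {π : K}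
    (h : π * IsCMField.complexConj K π = (p : K) ^ a) (φ : K →+* ℂ) :
    φ (π) * ComplexEmbedding.conjugate φ π = (p : ℂ) ^ a := by
  have h1 : ComplexEmbedding.conjugate φ π = φ (IsCMField.complexConj K π) :=
    (IsCMField.complexEmbedding_complexConj K φ π).symm
  rw [h1, ← map_mul, h, map_pow, map_natCast]

theorem no_relation {p w k : ℕ} [Fact p.Prime] {v₀ : HeightOneSpectrum (𝓞 F)}
    {P : HeightOneSpectrum (𝓞 F) → E[X]} {ι : E →+* ℂ}
    (h : FrobeniusFields P ι w p v₀ K J π pl f S)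
    (hpure : ∀ a ∈ ((P v₀).map ι).roots, ‖a‖ ^ 2 = (q v₀ : ℝ) ^ w) (hk : 0 < k) :
    ¬ IsotropicRelation P ι (w : ℤ) p k := by
  classical
  have hpp : p.Prime := Fact.out
  rintro ⟨A, ⟨hcard, N, hN, hprod⟩, hA⟩
  have hinj : Function.Injective
      (fun y : Σ z : (Σ i, J i), (K z.1 →+* ℂ) => y.2 (π y.1)) := fun y y' hyy =>
    inj_of_dissociated h.indep h.generic h.weil h.dissociated y y' hyy
  -- the roots of the first kind at `v`
  let C : HeightOneSpectrum (𝓞 F) → ℂ → Prop := fun v α =>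
    ((P v).map ι).roots.count α = 1 ∧ ConjAt π pl v α
  have hcount : ∀ v, Above v p → ∀ z z' : ℂ, (q v : ℂ) ^ w / z' = z →
      (A v).count z + (A v).count z' ≤ ((P v).map ι).roots.count z := by
    intro v hv z z' hzz
    refine le_trans ?_ (Multiset.count_le_of_le z (hA v hv))
    rw [Multiset.count_add]
    refine Nat.add_le_add_left ?_ _
    have h1 : ((A v).map (fun a => (q v : ℂ) ^ (w : ℤ) / a)).count z =
        ((A v).filter (fun a => z = (q v : ℂ) ^ (w : ℤ) / a)).card := Multiset.count_map _ _ _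
    rw [h1, Multiset.count_eq_card_filter_eq]
    apply Multiset.card_le_card
    apply Multiset.monotone_filter_right
    intro a ha
    rw [← ha, zpow_natCast, hzz]
  have hmem : ∀ v, Above v p → ∀ z ∈ A v, z ∈ ((P v).map ι).roots := fun v hv z hz =>
    Multiset.mem_of_le (hA v hv) (Multiset.mem_add.2 (Or.inl hz))
  have hfirst : ∀ z ∈ A v₀, C v₀ z := by
    intro z hz
    have hz' := hmem v₀ h.above z hz
    obtain ⟨h1, h2⟩ := h.first z hz'
    refine ⟨h1, h2.resolve_left fun h3 => ?_⟩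
    have h4 := hpure z hz'
    have h5 : z = (z.re : ℂ) := Complex.ext (by simp) (by simp [h3])
    have h6 : z * z = (q v₀ : ℂ) ^ w := by
      have h7 : ‖z‖ ^ 2 = z.re * z.re := by
        rw [h5, Complex.norm_real, Real.norm_eq_abs, sq_abs, Complex.ofReal_re]
        ring
      rw [h7] at h4
      rw [h5]
      exact_mod_cast h4
    have hz0 : z ≠ 0 := by
      rintro rfl
      rw [zero_mul] at h6
      exact pow_ne_zero w (Nat.cast_ne_zero.2 (q_ne v₀)) h6.symm
    have h8 := hcount v₀ h.above z z (by rw [← h6]; field_simp)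
    have h9 := Multiset.count_pos.2 hz
    omega
  have hrest : ∀ v, Above v p → ∀ z ∈ A v, ¬ C v z → z ∈ S := by
    intro v hv z hz hz2
    by_cases hvv : v = v₀
    · subst hvv
      exact absurd (hfirst z hz) hz2
    · exact (h.others v hv hvv z (hmem v hv z hz)).resolve_left hz2
  let A1 : HeightOneSpectrum (𝓞 F) → Multiset ℂ := fun v => (A v).filter (C v)
  let A3 : HeightOneSpectrum (𝓞 F) → Multiset ℂ := fun v => (A v).filter (fun z => ¬ C v z)
  have hsplit : ∀ v, (A v).prod = (A1 v).prod * (A3 v).prod := by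
    intro v
    rw [← Multiset.prod_add]
    congr 1
    exact (Multiset.filter_add_not (C v) (A v)).symm
  have hA1 : ∀ v, ∀ z ∈ A1 v, ∃ j ∈ univ.filter (fun j => pl j = v),
      ∃ φ : K j.1 →+* ℂ, φ (π j) = z := by
    intro v z hz
    obtain ⟨_, _, j, hj, φ, hφ⟩ := Multiset.mem_filter.1 hz
    exact ⟨j, Finset.mem_filter.2 ⟨mem_univ _, hj⟩, φ, hφ⟩
  -- at most one of two complex conjugate roots
  have hplace : ∀ z : Σ i, J i, Above (pl z) p → ∀ φ : K z.1 →+* ℂ,
      (A1 (pl z)).count (φ (π z)) +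
        (A1 (pl z)).count (ComplexEmbedding.conjugate φ (π z)) ≤ 1 := by
    intro z hz φ
    have hq : φ (π z) * ComplexEmbedding.conjugate φ (π z) = (q (pl z) : ℂ) ^ w := by
      rw [conj_mul' (h.weil z) φ, h.norm z, pow_mul]
      push_cast
      rfl
    have hq0 : ((q (pl z) : ℂ)) ^ w ≠ 0 := pow_ne_zero _ (Nat.cast_ne_zero.2 (q_ne _))
    have h1 : φ (π z) ≠ 0 := by
      intro h0
      rw [h0, zero_mul] at hq
      exact hq0 hq.symm
    have h2 : ComplexEmbedding.conjugate φ (π z) ≠ 0 := by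
      intro h0
      rw [h0, mul_zero] at hq
      exact hq0 hq.symm
    have hle : ∀ x, (A1 (pl z)).count x ≤ (A (pl z)).count x := fun x =>
      Multiset.count_le_of_le x (Multiset.filter_le _ _)
    by_cases c1 : φ (π z) ∈ A1 (pl z)
    · have c2 := (Multiset.mem_filter.1 c1).2.1
      have c3 := hcount (pl z) hz (φ (π z)) (ComplexEmbedding.conjugate φ (π z))
        (by rw [← hq]; field_simp)
      have c4 := hle (φ (π z))
      have c5 := hle (ComplexEmbedding.conjugate φ (π z))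
      omega
    · by_cases c2 : ComplexEmbedding.conjugate φ (π z) ∈ A1 (pl z)
      · have c3 := (Multiset.mem_filter.1 c2).2.1
        have c4 := hcount (pl z) hz (ComplexEmbedding.conjugate φ (π z)) (φ (π z))
          (by rw [← hq]; field_simp)
        have c5 := hle (φ (π z))
        have c6 := hle (ComplexEmbedding.conjugate φ (π z))
        omega
      · rw [Multiset.count_eq_zero_of_notMem c1, Multiset.count_eq_zero_of_notMem c2]
        omega
  -- the multiplicities
  let n : (Σ j : (Σ i, J i), (K j.1 →+* ℂ)) → ℤ := fun y =>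
    if Above (pl y.1) p then ((A1 (pl y.1)).count (y.2 (π y.1)) : ℤ) else 0
  have hfin := above_finite (F := F) hpp.ne_zero
  set V : Finset (HeightOneSpectrum (𝓞 F)) := hfin.toFinset with hV
  have hVmem : ∀ v, v ∈ V ↔ Above v p := fun v => by rw [hV, Set.Finite.mem_toFinset]; rfl
  have hfp : (∏ᶠ (v : HeightOneSpectrum (𝓞 F)) (_ : Above v p), (A v).prod) =
      ∏ v ∈ V, (A v).prod := by
    apply finprod_cond_eq_prod_of_cond_iff
    intro v _
    rw [hVmem]
  have hpr : ∏ v ∈ V, (A1 v).prod = ∏ y : Σ j : (Σ i, J i), (K j.1 →+* ℂ),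
      (y.2 (π y.1)) ^ n y := by
    have h1 : ∀ v ∈ V, (A1 v).prod = ∏ j ∈ univ.filter (fun j => pl j = v),
        ∏ φ : K j.1 →+* ℂ, φ (π j) ^ n ⟨j, φ⟩ := by
      intro v hv
      have hv' := (hVmem v).1 hv
      rw [Pool.Agent.V8H71.SS.prod_place (K := fun j : Σ i, J i => K j.1) hinj (hA1 v)]
      refine Finset.prod_congr rfl fun j hj => Finset.prod_congr rfl fun φ _ => ?_
      rw [Finset.mem_filter] at hj
      have h2 : n ⟨j, φ⟩ = ((A1 v).count (φ (π j)) : ℤ) := by
        simp only [n]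
        rw [hj.2, if_pos hv']
      rw [h2, zpow_natCast]
    rw [Finset.prod_congr rfl h1, Fintype.prod_sigma]
    have h3 : ∀ j, ∏ φ : K j.1 →+* ℂ, φ (π j) ^ n ⟨j, φ⟩ ≠ 1 → pl j ∈ V := by
      intro j hj
      by_contra h4
      apply hj
      apply Finset.prod_eq_one
      intro φ _
      have h5 : n ⟨j, φ⟩ = 0 := by
        simp only [n]
        rw [if_neg (fun h => h4 ((hVmem _).2 h))]
      rw [h5, zpow_zero]
    have h6 : ∏ j, ∏ φ : K j.1 →+* ℂ, φ (π j) ^ n ⟨j, φ⟩ =
        ∏ j ∈ univ.filter (fun j => pl j ∈ V), ∏ φ : K j.1 →+* ℂ, φ (π j) ^ n ⟨j, φ⟩ := by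
      symm
      apply Finset.prod_subset (Finset.subset_univ _)
      intro j _ hj
      by_contra h7
      exact hj (Finset.mem_filter.2 ⟨Finset.mem_univ _, h3 j h7⟩)
    rw [h6, ← Finset.prod_fiberwise_of_maps_to (s := univ.filter (fun j => pl j ∈ V)) (t := V)
      (g := pl) (fun j hj => (Finset.mem_filter.1 hj).2)
      (fun j => ∏ φ : K j.1 →+* ℂ, φ (π j) ^ n ⟨j, φ⟩)]
    refine Finset.prod_congr rfl fun v hv => Finset.prod_congr ?_ fun _ _ => rfl
    ext j
    simp only [Finset.mem_filter, Finset.mem_univ, true_and]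
    constructor
    · intro h7
      exact ⟨by rw [h7]; exact hv, h7⟩
    · exact fun h7 => h7.2
  let B : Multiset ℂ := ∑ v ∈ V, A3 v
  have hBmem : ∀ b ∈ B, b ∈ S := by
    intro b hb
    obtain ⟨v, hv, hb'⟩ := Multiset.mem_sum.1 hb
    obtain ⟨h1, h2⟩ := Multiset.mem_filter.1 hb'
    exact hrest v ((hVmem v).1 hv) b h1 h2
  have hBprod : B.prod = ∏ v ∈ V, (A3 v).prod := Multiset.prod_sum _ _
  rw [hfp, Finset.prod_congr rfl fun v _ => hsplit v, Finset.prod_mul_distrib, hpr,
    ← hBprod] at hprod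
  have hrel : (∏ y : Σ j : (Σ i, J i), (K j.1 →+* ℂ), (y.2 (π y.1)) ^ ((2 * N : ℕ) * n y : ℤ)) *
      ((2 * N) • B).prod = (p : ℂ) ^ ((w : ℤ) * k * finrank ℚ F * N) := by
    rw [← hprod, mul_pow, Multiset.prod_nsmul, ← Finset.prod_pow]
    congr 1
    refine Finset.prod_congr rfl fun y _ => ?_
    rw [mul_comm, zpow_mul, zpow_natCast]
  have hsymm : ∀ (j : Σ i, J i) (φ : K j.1 →+* ℂ),
      n ⟨j, φ⟩ = n ⟨j, ComplexEmbedding.conjugate φ⟩ := by
    rintro ⟨i, l⟩ φ
    have h1 := fun τ : K i →+* PadicAlgCl p => split_unrel h.indep h.generic h.weil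
      (fun y => ((2 * N : ℕ) * n y : ℤ)) _ h.unrelated
      (fun b hb => hBmem b (Multiset.mem_of_mem_nsmul hb)) hrel i φ τ
    have h2 : ∀ τ : K i →+* PadicAlgCl p, ∑ l, ((n ⟨⟨i, l⟩, φ⟩ -
        n ⟨⟨i, l⟩, ComplexEmbedding.conjugate φ⟩ : ℤ) : ℝ) *
        slopeVec (f ⟨i, l⟩ * w) (π ⟨i, l⟩) τ = 0 := by
      intro τ
      have h3 := h1 τ
      have h4 : ∑ l, ((((2 * N : ℕ) * n ⟨⟨i, l⟩, φ⟩ : ℤ) -
          ((2 * N : ℕ) * n ⟨⟨i, l⟩, ComplexEmbedding.conjugate φ⟩ : ℤ) : ℤ) : ℝ) *
          slopeVec (f ⟨i, l⟩ * w) (π ⟨i, l⟩) τ = (2 * N : ℝ) * ∑ l, ((n ⟨⟨i, l⟩, φ⟩ -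
        n ⟨⟨i, l⟩, ComplexEmbedding.conjugate φ⟩ : ℤ) : ℝ) *
        slopeVec (f ⟨i, l⟩ * w) (π ⟨i, l⟩) τ := by
        rw [Finset.mul_sum]
        refine Finset.sum_congr rfl fun l _ => ?_
        push_cast
        ring
      have h5 := h4.symm.trans h3
      have h6 : (0 : ℝ) < N := by exact_mod_cast hN
      exact (mul_eq_zero.1 h5).resolve_left (by positivity)
    have h3 := trivial_of_split (π := π) (a := fun z => f z * w) i (h.dissociated i)
      (fun l => n ⟨⟨i, l⟩, φ⟩ - n ⟨⟨i, l⟩, ComplexEmbedding.conjugate φ⟩) (fun l => ?_) h2 l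
    · simp only at h3
      linarith
    · simp only [n]
      by_cases hab : Above (pl ⟨i, l⟩) p
      · rw [if_pos hab, if_pos hab]
        have h7 := hplace ⟨i, l⟩ hab φ
        rw [abs_le]
        constructor <;> omega
      · rw [if_neg hab, if_neg hab]
        simp
  have hA0 : A v₀ = 0 := by
    rw [Multiset.eq_zero_iff_forall_notMem]
    intro z hz
    have hz1 := hfirst z hz
    obtain ⟨_, j, hj, φ, hφ⟩ := hz1
    have h1 := hplace j (by rw [hj]; exact h.above) φ
    have h2 := hsymm j φ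
    simp only [n] at h2
    rw [if_pos (by rw [hj]; exact h.above)] at h2
    have h3 : 0 < (A1 (pl j)).count (φ (π j)) := by
      rw [Multiset.count_pos, hφ, hj]
      exact Multiset.mem_filter.2 ⟨hz, hfirst z hz⟩
    omega
  have h4 := hcard v₀ h.above
  rw [hA0, Multiset.card_zero] at h4
  omega

end Pool.Agent.V8H94.SS
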